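import Pool.Agent.Helper92.BO.GoalsG

/-!
# Packet BO-TMP (project BO of helper92, MP_481f43_lc)
-/

namespace Pool.Agent.Helper51.BO

open Pool.Agent.Helper92.BO

theorem zd_eq (hP : PrmStmt) (hL : LocStmt) (G : SimpleGraph ℕ) (l : ℝ) (L L' : List ℕ)
    (b c : ℕ → ℝ) (hp : L.Perm L') (hb : In01 L b) (hbc : ∀ u ∈ L, b u = c u) (u : ℕ)
    (hu : u ∈ L) : Zd G l L u b = Zd G l L' u c := by
  unfold Zd
  rw [← hbc u hu]
  congr 1
  have h1 : In01 (L.erase u) (cut G u (1 - b u) b) := by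
    intro w hw
    have hw' := hb w (List.mem_of_mem_erase hw)
    have hu' := hb u hu
    unfold cut
    split_ifs
    · exact ⟨le_min hw'.1 (by linarith), (min_le_left _ _).trans hw'.2⟩
    · exact hw'
  rw [(hP G 0 l (L.erase u) (L'.erase u) _ (hp.erase u) h1).2]
  refine (hL G (fun _ => 0) 0 l (L'.erase u) _ _ ?_).2.1
  intro w hw
  have hw' : w ∈ L := hp.mem_iff.2 (List.mem_of_mem_erase hw)
  unfold cut
  rw [hbc w hw']

theorem ph_eq (hP : PrmStmt) (hL : LocStmt) (G : SimpleGraph ℕ) (l : ℝ) (L L' : List ℕ)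
    (b c : ℕ → ℝ) (hp : L.Perm L') (hb : In01 L b) (hbc : ∀ u ∈ L, b u = c u) (u : ℕ)
    (hu : u ∈ L) : Ph G l L u b = Ph G l L' u c := by
  unfold Ph
  rw [zd_eq hP hL G l L L' b c hp hb hbc u hu, hbc u hu, (hP G 0 l L L' b hp hb).2,
    (hL G (fun _ => 0) 0 l L' b c fun w hw => hbc w (hp.mem_iff.2 hw)).2.1]

theorem tmp (hP : PrmStmt) (hL : LocStmt) : TmpStmt := by
  intro G l L L' b b' c c' hp hb hb' hbc hbc'
  unfold Tm
  have h1 : (L.map fun u => if b' u < b u then Ph G l L u b' - Ph G l L u b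
      else -|Ph G l L u b' - Ph G l L u b|) =
      L.map fun u => if c' u < c u then Ph G l L' u c' - Ph G l L' u c
      else -|Ph G l L' u c' - Ph G l L' u c| := by
    refine List.map_congr_left fun u hu => ?_
    rw [ph_eq hP hL G l L L' b c hp hb hbc u hu, ph_eq hP hL G l L L' b' c' hp hb' hbc' u hu,
      hbc u hu, hbc' u hu]
  rw [h1]
  exact (hp.map _).sum_eq

end Pool.Agent.Helper51.BO
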